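import Pool.Agent.H95.RQ.Targets2

/-!
# Hilbert 90 for the `T`-units
-/

set_option autoImplicit false

open NumberField NumberField.InfinitePlace IsDedekindDomain

namespace Pool.Agent.H65.RQ

open Pool.Agent.H95.RQ Pool.Agent.H28.RC

section One

variable {K : Type} [Field K] [NumberField K]

/-- an element whose only zero outside `T` is `P₀` -/
theorem h1s_elt (T : Finset (HeightOneSpectrum (𝓞 K))) (hT : CG T)
    (P₀ : HeightOneSpectrum (𝓞 K)) (h₀ : P₀ ∉ T) :
    ∃ b : Kˣ, P₀.valuation K (b : K) = WithZero.exp (-1 : ℤ) ∧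
      ∀ P ∉ T, P ≠ P₀ → P.valuation K (b : K) = 1 := by
  obtain ⟨J, a, ha, hJ, h⟩ := hT P₀.asIdeal P₀.ne_bot
  have ha' : (algebraMap (𝓞 K) K a) ≠ 0 := by simpa using ha
  refine ⟨Units.mk0 (algebraMap (𝓞 K) K a) ha', ?_, ?_⟩
  · rw [Units.val_mk0, HeightOneSpectrum.valuation_of_algebraMap]
    have hne : P₀.intValuation a ≠ 0 := P₀.intValuation_ne_zero a ha
    have h1 : P₀.intValuation a ≤ WithZero.exp (-1 : ℤ) := by
      have := (P₀.intValuation_le_pow_iff_dvd a 1).2 (by rw [pow_one, ← h]; exact dvd_mul_right _ _)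
      simpa using this
    have h2 : ¬ P₀.intValuation a ≤ WithZero.exp (-2 : ℤ) := by
      intro h2
      have h3 := (P₀.intValuation_le_pow_iff_dvd a 2).1 (by simpa using h2)
      rw [← h, pow_two] at h3
      have h4 : P₀.asIdeal ∣ J := by
        obtain ⟨C, hC⟩ := h3
        rw [mul_assoc] at hC
        have := mul_left_cancel₀ P₀.ne_bot hC
        exact ⟨C, this⟩
      exact hJ P₀ h₀ (Ideal.le_of_dvd h4)
    rw [← WithZero.exp_log hne] at h1 h2 ⊢
    rw [WithZero.exp_le_exp] at h1 h2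
    congr 1
    omega
  · intro P hP hne
    rw [Units.val_mk0, HeightOneSpectrum.valuation_eq_one_iff_notMem]
    intro hmem
    have h1 : P.asIdeal ∣ Ideal.span {a} := by
      rw [Ideal.dvd_span_singleton]; exact hmem
    rw [← h] at h1
    rcases P.prime.dvd_or_dvd h1 with h2 | h2
    · apply hne
      have h3 : P₀.asIdeal ≤ P.asIdeal := Ideal.le_of_dvd h2
      have h4 := P₀.isMaximal.eq_of_le P.isPrime.ne_top h3
      exact HeightOneSpectrum.ext h4.symm
    · exact hJ P hP (Ideal.le_of_dvd h2)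

/-- an element with prescribed valuations outside `T` -/
theorem h1s_prescribe (T : Finset (HeightOneSpectrum (𝓞 K))) (hT : CG T)
    (c : HeightOneSpectrum (𝓞 K) → ℤ) (hc : {P | P ∉ T ∧ c P ≠ 0}.Finite) :
    ∃ b : Kˣ, ∀ P ∉ T, P.valuation K (b : K) = WithZero.exp (-c P) := by
  classical
  have hex : ∀ P₀ : HeightOneSpectrum (𝓞 K), ∃ b : Kˣ, P₀ ∉ T →
      P₀.valuation K (b : K) = WithZero.exp (-1 : ℤ) ∧
      ∀ P ∉ T, P ≠ P₀ → P.valuation K (b : K) = 1 := by
    intro P₀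
    by_cases h : P₀ ∈ T
    · exact ⟨1, fun h' => absurd h h'⟩
    · obtain ⟨b, hb⟩ := h1s_elt T hT P₀ h
      exact ⟨b, fun _ => hb⟩
  choose b hb using hex
  refine ⟨∏ P₀ ∈ hc.toFinset, b P₀ ^ c P₀, fun P hP => ?_⟩
  have h1 : P.valuation K ((∏ P₀ ∈ hc.toFinset, b P₀ ^ c P₀ : Kˣ) : K) =
      ∏ P₀ ∈ hc.toFinset, P.valuation K (b P₀ : K) ^ c P₀ := by
    rw [Units.coe_prod, map_prod]
    refine Finset.prod_congr rfl fun P₀ _ => ?_
    rw [Units.val_zpow_eq_zpow_val, map_zpow₀]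
  rw [h1]
  have h2 : ∀ P₀ ∈ hc.toFinset, P₀ ≠ P → P.valuation K (b P₀ : K) ^ c P₀ = 1 := by
    intro P₀ h₀ hne
    rw [Set.Finite.mem_toFinset] at h₀
    rw [(hb P₀ h₀.1).2 P hP hne.symm, one_zpow]
  by_cases hcP : c P = 0
  · rw [hcP, neg_zero, WithZero.exp_zero]
    apply Finset.prod_eq_one
    intro P₀ h₀
    apply h2 P₀ h₀
    rintro rfl
    rw [Set.Finite.mem_toFinset] at h₀
    exact h₀.2 hcP
  · rw [Finset.prod_eq_single P h2 (fun h => absurd (by
      rw [Set.Finite.mem_toFinset]; exact ⟨hP, hcP⟩) h), (hb P hP).1, ← WithZero.exp_zsmul]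
    congr 1
    simp

/-- finitely many nontrivial valuations -/
theorem h1s_fin (y : Kˣ) : {Q : HeightOneSpectrum (𝓞 K) | Q.valuation K (y : K) ≠ 1}.Finite := by
  refine ((HeightOneSpectrum.Support.finite (𝓞 K) (y : K)).union
    (HeightOneSpectrum.Support.finite (𝓞 K) ((y : K)⁻¹))).subset ?_
  intro Q hQ
  have hQ' : Q.valuation K (y : K) ≠ 1 := hQ
  rcases lt_or_gt_of_ne hQ' with h | h
  · right
    change 1 < Q.valuation K ((y : K)⁻¹)
    rw [map_inv₀, one_lt_inv₀ (by simp [pos_iff_ne_zero])]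
    exact h
  · left
    exact h

end One

theorem pf_H1S (h_NMN : T_NMN) (h_VAL : T_VAL) : T_H1S := by
  intro F E _ _ _ _ _ _ σ T hσ hNR hCG
  obtain ⟨-, -, hnm, -⟩ := h_NMN F E σ hσ
  obtain ⟨hv1, hv2, hv3, hv4, hv5, hv6, -⟩ := h_VAL F E
  unfold h1
  rw [Subgroup.relIndex_eq_one]
  intro x hx
  obtain ⟨hxU, hxn⟩ := Subgroup.mem_inf.1 hx
  rw [MonoidHom.mem_ker] at hxn
  have hN : Algebra.norm F (x : E) = 1 := by
    have h := hnm x
    rw [hxn, Units.val_one] at h
    exact ((algebraMap F E).injective (by rw [map_one]; exact h)).symm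
  have : IsCyclic (E ≃ₐ[F] E) := ⟨⟨σ, hσ⟩⟩
  obtain ⟨y, hy⟩ := groupCohomology.exists_div_of_norm_eq_one hσ hN
  have hσy : σ (y : E) ≠ 0 := by simp
  have hxy : (y : E) = x * σ (y : E) := by
    rw [← hy]; field_simp
  -- primes above `T`
  have hab : ∀ (g : E ≃ₐ[F] E) (Q : HeightOneSpectrum (𝓞 E)), ¬ AbT E T Q →
      ¬ AbT E T (mp g Q) := by
    rintro g Q hQ ⟨P, hP, h⟩
    exact hQ ⟨P, hP, by rw [← hv2 g Q]; exact h⟩
  have hnot : ∀ (P : HeightOneSpectrum (𝓞 F)), P ∉ T → ∀ Q : Ab F E P, ¬ AbT E T Q.1 := by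
    rintro P hP Q ⟨P', hP', h⟩
    have h1 : P.asIdeal = P'.asIdeal := Q.2.symm.trans h
    have h2 : P = P' := HeightOneSpectrum.ext h1
    exact hP (h2 ▸ hP')
  -- invariance of the valuations of `y`
  have hinv : ∀ Q : HeightOneSpectrum (𝓞 E), ¬ AbT E T Q →
      (mp σ Q).valuation E (y : E) = Q.valuation E (y : E) := by
    intro Q hQ
    have h1 : (mp σ Q).valuation E (x : E) = 1 := hxU _ (hab σ Q hQ)
    rw [hxy, map_mul, h1, one_mul, hv1, ← hxy]
  have hinvk : ∀ (k : ℕ) (Q : HeightOneSpectrum (𝓞 E)), ¬ AbT E T Q →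
      (mp (σ ^ k) Q).valuation E (y : E) = Q.valuation E (y : E) := by
    intro k
    induction k with
    | zero =>
      intro Q hQ
      rw [hv3, pow_zero, Equiv.Perm.one_apply]
    | succ k ih =>
      intro Q hQ
      rw [hv3, pow_succ, Equiv.Perm.mul_apply, ← hv3, ih _ (hab σ Q hQ), hinv Q hQ]
  have hinvg : ∀ (g : E ≃ₐ[F] E) (Q : HeightOneSpectrum (𝓞 E)), ¬ AbT E T Q →
      (mp g Q).valuation E (y : E) = Q.valuation E (y : E) := by
    intro g Q hQ
    obtain ⟨k, rfl⟩ := mem_powers_iff_mem_zpowers.2 (hσ g)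
    exact hinvk k Q hQ
  have hconst : ∀ (P : HeightOneSpectrum (𝓞 F)), P ∉ T → ∀ Q Q' : Ab F E P,
      Q.1.valuation E (y : E) = Q'.1.valuation E (y : E) := by
    intro P hP Q Q'
    obtain ⟨g, hg⟩ := hv4 Q.1 Q'.1 (Q.2.trans Q'.2.symm)
    rw [← hg, hinvg g Q.1 (hnot P hP Q)]
  -- the valuation of `y` above `P`
  have hne : ∀ P : HeightOneSpectrum (𝓞 F), Nonempty (Ab F E P) := fun P => (hv6 P).1
  let q : ∀ P : HeightOneSpectrum (𝓞 F), Ab F E P := fun P => (hne P).some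
  have hqinj : Function.Injective fun P => (q P).1 := by
    intro P P' h
    have h' : (q P).1 = (q P').1 := h
    apply HeightOneSpectrum.ext
    rw [← (q P).2, ← (q P').2, h']
  have hc : {P | P ∉ T ∧ -WithZero.log ((q P).1.valuation E (y : E)) ≠ 0}.Finite := by
    refine ((h1s_fin y).preimage (f := fun P => (q P).1) hqinj.injOn).subset ?_
    rintro P ⟨-, hP⟩
    change (q P).1.valuation E (y : E) ≠ 1
    intro h
    apply hP
    rw [h, WithZero.log_one, neg_zero]
  obtain ⟨β, hβ⟩ := h1s_prescribe T hCG (fun P => -WithZero.log ((q P).1.valuation E (y : E))) hc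
  have hβE : algebraMap F E (β : F) ≠ 0 := by simp
  refine Subgroup.mem_map.2 ⟨Units.map (algebraMap F E : F →* E) β / y, ?_, ?_⟩
  · intro Q hQ
    obtain ⟨P, hP⟩ := hv5 Q
    have hPT : P ∉ T := fun h => hQ ⟨P, h, hP⟩
    have hy0 : Q.valuation E (y : E) ≠ 0 := by simp
    have hqy0 : (q P).1.valuation E (y : E) ≠ 0 := by simp
    have h1 : Q.valuation E (algebraMap F E (β : F)) = Q.valuation E (y : E) := by
      have h2 : Q.valuation E (algebraMap F E (β : F)) = P.valuation F (β : F) :=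
        hNR P ⟨Q, hP⟩ hPT (β : F)
      rw [h2, hβ P hPT, neg_neg, WithZero.exp_log hqy0]
      exact hconst P hPT (q P) ⟨Q, hP⟩
    rw [Units.val_div_eq_div_val, map_div₀, Units.coe_map]
    change Q.valuation E (algebraMap F E (β : F)) / Q.valuation E (y : E) = 1
    rw [h1, div_self hy0]
  · apply Units.ext
    change ((us σ (Units.map (algebraMap F E : F →* E) β / y) /
      (Units.map (algebraMap F E : F →* E) β / y) : Eˣ) : E) = (x : E)
    rw [Units.val_div_eq_div_val, map_div, Units.val_div_eq_div_val, Units.val_div_eq_div_val]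
    change (σ (algebraMap F E (β : F)) / σ (y : E)) / (algebraMap F E (β : F) / (y : E)) = (x : E)
    rw [AlgEquiv.commutes, ← hy]
    field_simp

end Pool.Agent.H65.RQ
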