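import Pool.Agent.H95.RQ.Targets2

/-!
# Comparison of the lattices `P ^ j Λ` with the valuations above `P`
-/

set_option autoImplicit false

open NumberField NumberField.InfinitePlace IsDedekindDomain

namespace Pool.Agent.H65.RQ

open Pool.Agent.H95.RQ Pool.Agent.H28.RC

theorem lav_exp_bound (a : WithZero (Multiplicative ℤ)) : ∃ c : ℤ, a ≤ WithZero.exp c := by
  rcases eq_or_ne a 0 with h | h
  · exact ⟨0, by rw [h]; exact zero_le⟩
  · exact ⟨WithZero.log a, by rw [WithZero.exp_log h]⟩

theorem lav_fin_bound {ι : Type*} [Finite ι] (f : ι → WithZero (Multiplicative ℤ)) :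
    ∃ c : ℤ, ∀ i, f i ≤ WithZero.exp c := by
  choose c hc using fun i => lav_exp_bound (f i)
  obtain ⟨M, hM⟩ := Finite.exists_le c
  exact ⟨M, fun i => (hc i).trans (WithZero.exp_le_exp.2 (hM i))⟩

/-- the coordinates in a basis are traces against the trace dual basis -/
theorem lav_repr {F E : Type} [Field F] [NumberField F] [Field E] [NumberField E] [Algebra F E]
    {ι : Type} [Finite ι] [DecidableEq ι] (b : Module.Basis ι F E) (x : E) (i : ι) :
    b.repr x i = Algebra.trace F E (x * b.traceDual i) := by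
  have h := Module.Basis.traceDual_repr_apply (b := b.traceDual) x i
  rw [Module.Basis.traceDual_traceDual] at h
  rw [h, Algebra.traceForm_apply]

/-- an element of `F` with small valuations above `P` -/
theorem lav_small {F E : Type} [Field F] [NumberField F] [Field E] [NumberField E] [Algebra F E]
    (P : HeightOneSpectrum (𝓞 F)) (c : ℤ)
    (he : ∀ Q : Ab F E P, ∃ e : ℕ, 1 ≤ e ∧ ∀ x : F,
      Q.1.valuation E (algebraMap F E x) = P.valuation F x ^ e) :
    ∃ d : F, d ≠ 0 ∧ ∀ Q : Ab F E P,
      Q.1.valuation E (algebraMap F E d) * WithZero.exp c ≤ 1 := by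
  obtain ⟨p, hpm, hp0⟩ := Submodule.exists_mem_ne_zero_of_ne_bot P.ne_bot
  have hv : P.valuation F (algebraMap (𝓞 F) F p) < 1 := by
    rw [HeightOneSpectrum.valuation_lt_one_iff_mem]
    exact hpm
  have hp0' : algebraMap (𝓞 F) F p ≠ 0 := by
    simpa using hp0
  have hv0 : P.valuation F (algebraMap (𝓞 F) F p) ≠ 0 := by
    simpa using hp0'
  have hv1 : P.valuation F (algebraMap (𝓞 F) F p) ≤ WithZero.exp (-1 : ℤ) := by
    rw [← WithZero.exp_log hv0] at hv ⊢
    rw [← WithZero.exp_zero, WithZero.exp_lt_exp] at hv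
    rw [WithZero.exp_le_exp]
    omega
  refine ⟨algebraMap (𝓞 F) F p ^ c.toNat, pow_ne_zero _ hp0', fun Q => ?_⟩
  obtain ⟨e, he1, he2⟩ := he Q
  have h1 : Q.1.valuation E (algebraMap F E (algebraMap (𝓞 F) F p ^ c.toNat)) ≤
      WithZero.exp (-(c.toNat : ℤ)) := by
    rw [he2, map_pow, ← pow_mul, mul_comm, pow_mul]
    have h2 : P.valuation F (algebraMap (𝓞 F) F p) ^ e ≤ WithZero.exp (-1 : ℤ) :=
      (pow_le_of_le_one zero_le hv.le (by omega)).trans hv1
    refine (pow_le_pow_left₀ zero_le h2 _).trans ?_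
    rw [← WithZero.exp_nsmul]
    apply le_of_eq
    congr 1
    simp
  calc _ ≤ WithZero.exp (-(c.toNat : ℤ)) * WithZero.exp c := by gcongr
    _ = WithZero.exp (-(c.toNat : ℤ) + c) := by rw [WithZero.exp_add]
    _ ≤ WithZero.exp (0 : ℤ) := by
        rw [WithZero.exp_le_exp]
        have := Int.self_le_toNat c
        omega
    _ = 1 := WithZero.exp_zero

theorem pf_LAV (_h_LAM : T_LAM) (h_TRP : T_TRP) (h_VAL : T_VAL) : T_LAV := by
  intro F E _ _ _ _ _ _ P
  obtain ⟨-, -, -, -, -, hF, he⟩ := h_VAL F E
  obtain ⟨-, hfin, -⟩ := hF P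
  have : Finite (Ab F E P) := hfin
  constructor
  · obtain ⟨c, hc⟩ := lav_fin_bound (fun p : Ab F E P × (E ≃ₐ[F] E) =>
      p.1.1.valuation E (IsGalois.normalBasis F E p.2))
    refine ⟨c, fun j x hj hx Q => ?_⟩
    rw [← (IsGalois.normalBasis F E).sum_repr x]
    apply Valuation.map_sum_le
    intro τ _
    obtain ⟨e, he1, he2⟩ := he P Q
    rw [Algebra.smul_def, map_mul, he2]
    have h1 : P.valuation F ((IsGalois.normalBasis F E).repr x τ) ^ e ≤ WithZero.exp (-j) := by
      have h2 : WithZero.exp (-j) ≤ 1 := by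
        rw [← WithZero.exp_zero, WithZero.exp_le_exp]; omega
      refine (pow_le_pow_left₀ zero_le (hx τ) e).trans ?_
      exact pow_le_of_le_one zero_le h2 (by omega)
    calc _ ≤ WithZero.exp (-j) * WithZero.exp c := by
          gcongr
          exact hc (Q, τ)
      _ = WithZero.exp (c - j) := by
          rw [← WithZero.exp_add]
          congr 1
          ring
  · classical
    obtain ⟨c1, hc1⟩ := lav_fin_bound (fun p : Ab F E P × (E ≃ₐ[F] E) =>
      p.1.1.valuation E ((IsGalois.normalBasis F E).traceDual p.2))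
    obtain ⟨d, hd0, hd⟩ := lav_small P c1 (he P)
    have hdv : P.valuation F d ≠ 0 := by simpa using hd0
    refine ⟨-WithZero.log (P.valuation F d), fun a x ha hx τ => ?_⟩
    have hav : P.valuation F a ≠ 0 := by simpa using ha
    have haE : algebraMap F E a ≠ 0 := by simpa using ha
    have key := h_TRP F E P ((x / algebraMap F E a) * algebraMap F E d *
      (IsGalois.normalBasis F E).traceDual τ) (by
        intro Q
        have hQa : Q.1.valuation E (algebraMap F E a) ≠ 0 := by simpa using ha
        rw [map_mul, map_mul, map_div₀]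
        have h1 : Q.1.valuation E x / Q.1.valuation E (algebraMap F E a) ≤ 1 :=
          div_le_one_of_le₀ (hx Q) zero_le
        calc _ ≤ 1 * Q.1.valuation E (algebraMap F E d) * WithZero.exp c1 := by
              gcongr
              exact hc1 (Q, τ)
          _ ≤ 1 := by rw [one_mul]; exact hd Q)
    have h3 : (IsGalois.normalBasis F E).repr x τ = a * d⁻¹ *
        Algebra.trace F E ((x / algebraMap F E a) * algebraMap F E d *
          (IsGalois.normalBasis F E).traceDual τ) := by
      rw [lav_repr]
      have h4 : x / algebraMap F E a * algebraMap F E d * (IsGalois.normalBasis F E).traceDual τ =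
          (d * a⁻¹) • (x * (IsGalois.normalBasis F E).traceDual τ) := by
        rw [Algebra.smul_def, map_mul, map_inv₀]
        field_simp
      rw [h4, map_smul, smul_eq_mul]
      field_simp
    rw [h3, map_mul, map_mul, map_inv₀]
    rw [WithZero.exp_neg, WithZero.exp_log hdv]
    calc _ ≤ P.valuation F a * (P.valuation F d)⁻¹ * 1 := by gcongr
      _ = _ := by rw [mul_one]

end Pool.Agent.H65.RQ
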