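import Pool.Agent.H95.RQ.Targets2

/-!
# Weak approximation (`T_WAS`)
-/

set_option autoImplicit false

open NumberField NumberField.InfinitePlace IsDedekindDomain

namespace Pool.Agent.H65.RQ

open Pool.Agent.H95.RQ Pool.Agent.H28.RC

theorem pf_WAS (h_SGN : Pool.Agent.H28.RC.T_SGN) : T_WAS := by
  intro K _ _ T k g S
  classical
  -- common denominator
  obtain ⟨d, hd⟩ := IsLocalization.exist_integer_multiples_of_finset (nonZeroDivisors (𝓞 K))
    (T.image fun P => ((g P : Kˣ) : K))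
  have hd0 : (d : 𝓞 K) ≠ 0 := nonZeroDivisors.ne_zero d.2
  have hx : ∀ P ∈ T, ∃ x : 𝓞 K, algebraMap (𝓞 K) K x = algebraMap (𝓞 K) K d * (g P : K) := by
    intro P hP
    obtain ⟨x, hx⟩ := hd _ (Finset.mem_image_of_mem _ hP)
    refine ⟨x, ?_⟩
    rw [hx, Algebra.smul_def]
  have hx' : ∀ P : HeightOneSpectrum (𝓞 K), ∃ x : 𝓞 K, P ∈ T →
      algebraMap (𝓞 K) K x = algebraMap (𝓞 K) K d * (g P : K) := by
    intro P
    by_cases hP : P ∈ T
    · obtain ⟨x, hx⟩ := hx P hP
      exact ⟨x, fun _ => hx⟩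
    · exact ⟨0, fun h => absurd h hP⟩
  choose x hx using hx'
  let n : HeightOneSpectrum (𝓞 K) → ℤ := fun P => -WithZero.log (P.valuation K (algebraMap (𝓞 K) K (x P)))
  let M : ℕ := T.sup fun P => (n P + k + 1).toNat
  have hM : ∀ P ∈ T, n P + k + 1 ≤ M := by
    intro P hP
    have h1 : (n P + k + 1).toNat ≤ M := Finset.le_sup (f := fun P => (n P + k + 1).toNat) hP
    omega
  obtain ⟨a, ha⟩ := IsDedekindDomain.exists_forall_sub_mem_ideal (s := T)
    (fun P : HeightOneSpectrum (𝓞 K) => P.asIdeal) (fun _ => M) (fun P _ => P.prime)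
    (fun P _ Q _ hPQ h => hPQ (HeightOneSpectrum.ext h)) (fun P => x P)
  have hm : (∏ P ∈ T, P.asIdeal ^ M : Ideal (𝓞 K)) ≠ ⊥ := by
    rw [← Ideal.zero_eq_bot, Finset.prod_ne_zero_iff]
    exact fun P _ => pow_ne_zero _ P.ne_bot
  obtain ⟨b, hb, hb0, hb1, hb2⟩ := h_SGN K (∏ P ∈ T, P.asIdeal ^ M) a
    {v | ¬ (v ∈ S ↔ re v (algebraMap (𝓞 K) K d) < 0)} hm
  have hdK : algebraMap (𝓞 K) K d ≠ 0 := by
    rw [Ne, FaithfulSMul.algebraMap_eq_zero_iff]
    exact hd0
  have hbK : algebraMap (𝓞 K) K b ≠ 0 := by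
    rw [Ne, FaithfulSMul.algebraMap_eq_zero_iff]
    exact hb0
  have hre : ∀ v : RP K, re v (algebraMap (𝓞 K) K d) ≠ 0 := by
    intro v h
    unfold re at h
    rw [map_eq_zero] at h
    exact hdK h
  have hsg : ∀ v : RP K, re v (algebraMap (𝓞 K) K b / algebraMap (𝓞 K) K d) =
      re v (algebraMap (𝓞 K) K b) / re v (algebraMap (𝓞 K) K d) := by
    intro v
    unfold re
    rw [map_div₀]
  refine ⟨Units.mk0 (algebraMap (𝓞 K) K b / algebraMap (𝓞 K) K d) (div_ne_zero hbK hdK),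
    ?_, ?_, ?_⟩
  · intro P hP
    have hgK : (g P : K) ≠ 0 := (g P).ne_zero
    have hxP : algebraMap (𝓞 K) K (x P) ≠ 0 := by
      rw [hx P hP]
      exact mul_ne_zero hdK hgK
    show P.valuation K ((((Units.mk0 (algebraMap (𝓞 K) K b / algebraMap (𝓞 K) K d)
      (div_ne_zero hbK hdK)) / g P : Kˣ) : K) - 1) ≤ _
    rw [Units.val_div_eq_div_val, Units.val_mk0, div_div, ← hx P hP]
    have e : algebraMap (𝓞 K) K b / algebraMap (𝓞 K) K (x P) - 1 =
        algebraMap (𝓞 K) K (b - x P) / algebraMap (𝓞 K) K (x P) := by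
      rw [map_sub, sub_div, div_self hxP]
    have h1 : b - x P ∈ P.asIdeal ^ M := by
      have h2 : b - x P = (b - a) + (a - x P) := by ring
      rw [h2]
      refine add_mem ?_ (ha P hP)
      exact Ideal.prod_le_inf.trans (Finset.inf_le hP) hb
    have h3 : P.valuation K (algebraMap (𝓞 K) K (b - x P)) ≤ WithZero.exp (-(M : ℤ)) := by
      rw [HeightOneSpectrum.valuation_of_algebraMap]
      exact (HeightOneSpectrum.intValuation_le_pow_iff_mem P _ M).2 h1
    have h4 : P.valuation K (algebraMap (𝓞 K) K (x P)) = WithZero.exp (-(n P)) := by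
      show _ = WithZero.exp (- -_)
      rw [neg_neg, WithZero.exp_log]
      exact (Valuation.ne_zero_iff _).2 hxP
    rw [e, map_div₀, h4]
    calc P.valuation K (algebraMap (𝓞 K) K (b - x P)) / WithZero.exp (-(n P))
        ≤ WithZero.exp (-(M : ℤ)) / WithZero.exp (-(n P)) := by
          gcongr
          exact zero_le
      _ = WithZero.exp (-(M : ℤ) - -(n P)) := (WithZero.exp_sub _ _).symm
      _ ≤ _ := by
          rw [WithZero.exp_le_exp]
          have := hM P hP
          omega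
  · intro v hv
    rw [Units.val_mk0, hsg]
    by_cases h : re v (algebraMap (𝓞 K) K d) < 0
    · have h1 := hb2 v (by simp [hv, h])
      exact div_neg_of_pos_of_neg h1 h
    · have h1 := hb1 v (by simp [hv, h])
      have h2 : 0 < re v (algebraMap (𝓞 K) K d) := lt_of_le_of_ne (not_lt.1 h) (hre v).symm
      exact div_neg_of_neg_of_pos h1 h2
  · intro v hv
    rw [Units.val_mk0, hsg]
    by_cases h : re v (algebraMap (𝓞 K) K d) < 0
    · have h1 := hb1 v (by simp [hv, h])
      exact div_pos_of_neg_of_neg h1 h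
    · have h1 := hb2 v (by simp [hv, h])
      have h2 : 0 < re v (algebraMap (𝓞 K) K d) := lt_of_le_of_ne (not_lt.1 h) (hre v).symm
      exact div_pos h1 h2

end Pool.Agent.H65.RQ
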